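import Pool.Agent.H65.NV.PTargets

/-!
# NVK, part P, row EMZ: sums of smooth functions over the integral points
-/

set_option autoImplicit false

open MeasureTheory Set Filter NumberField NumberField.InfinitePlace
open Pool.Agent.H65.CM4 Pool.Agent.H61.NVK Pool.Agent.H89.NV Pool.Agent.H65.NV
open scoped Real Topology

namespace Pool.Agent.H38.NVP_EMZ

section

variable {ι : Type} [Fintype ι]

/-- the real vector of an integral point -/
def cz (z : ι → ℤ) : ι → ℝ := fun i => (z i : ℝ)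

omit [Fintype ι] in
theorem cz_add (a b : ι → ℤ) : cz (a + b) = cz a + cz b := by
  funext i; simp [cz]

omit [Fintype ι] in
theorem add_cz (t : ι → ℝ) (z : ι → ℤ) : t + cz z = fun i => t i + (z i : ℝ) := rfl

/-- the integral points of a box -/
noncomputable def Zb (M : ℕ) : Finset (ι → ℤ) :=
  letI := Classical.decEq ι
  Finset.Icc (fun _ => -(M : ℤ)) (fun _ => (M : ℤ))

theorem mem_Zb {M : ℕ} {z : ι → ℤ} (h : ‖cz z‖ ≤ M) : z ∈ Zb M := by
  classical
  have h2 : ∀ i, |z i| ≤ (M : ℤ) := fun i => by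
    have h3 : ‖cz z i‖ ≤ M := (norm_le_pi_norm (cz z) i).trans h
    rw [cz, Real.norm_eq_abs] at h3
    exact_mod_cast h3
  unfold Zb
  rw [Finset.mem_Icc]
  exact ⟨fun i => (abs_le.1 (h2 i)).1, fun i => (abs_le.1 (h2 i)).2⟩

/-- local finiteness -/
theorem locfin {K : Set (ι → ℝ)} (hK : IsCompact K) {g : (ι → ℝ) → ℝ} (h0 : ∀ t, t ∉ K → g t = 0)
    (R : ℝ) : ∃ M : ℕ, ∀ y : ι → ℝ, ‖y‖ ≤ R → ∀ z : ι → ℤ, z ∉ Zb M → y + cz z ∉ K ∧
      g (y + cz z) = 0 := by
  obtain ⟨R', hR'⟩ := hK.isBounded.exists_norm_le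
  obtain ⟨M, hM⟩ := exists_nat_ge (R' + R)
  refine ⟨M, fun y hy z hz => ?_⟩
  have h : y + cz z ∉ K := by
    intro h
    refine hz (mem_Zb ?_)
    have h1 := hR' _ h
    have h2 : ‖cz z‖ ≤ ‖y + cz z‖ + ‖y‖ := by
      have h3 : cz z = (y + cz z) - y := by abel
      calc ‖cz z‖ = ‖(y + cz z) - y‖ := by rw [← h3]
        _ ≤ _ := norm_sub_le _ _
    linarith
  exact ⟨h, h0 _ h⟩

open Classical in
omit [Fintype ι] in
theorem abs_sum_bd (Z : Finset (ι → ℤ)) (D : (ι → ℤ) → ℝ) (P : (ι → ℤ) → Prop) {L : ℝ} {N : ℕ}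
    (hL : 0 ≤ L) (h1 : ∀ z, |D z| ≤ if P z then L else 0) (hc : (Z.filter P).card ≤ N) :
    |∑ z ∈ Z, D z| ≤ N * L := by
  have h2 : |∑ z ∈ Z, D z| ≤ ∑ z ∈ Z, |D z| := Finset.abs_sum_le_sum_abs _ _
  have h3 : ∑ z ∈ Z, |D z| ≤ ∑ z ∈ Z, (if P z then L else 0) := Finset.sum_le_sum fun z _ => h1 z
  have h4 : ∑ z ∈ Z, (if P z then L else 0) = (Z.filter P).card * L := by
    rw [← Finset.sum_filter, Finset.sum_const, nsmul_eq_mul]
  have h5 : ((Z.filter P).card : ℝ) * L ≤ N * L :=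
    mul_le_mul_of_nonneg_right (by exact_mod_cast hc) hL
  linarith

/-- the periodized function -/
noncomputable def Fp (g : (ι → ℝ) → ℝ) (y : ι → ℝ) : ℝ := ∑' z : ι → ℤ, g (y + cz z)

theorem Fp_eq {K : Set (ι → ℝ)} (hK : IsCompact K) {g : (ι → ℝ) → ℝ} (h0 : ∀ t, t ∉ K → g t = 0)
    (R : ℝ) : ∃ M : ℕ, (∀ y : ι → ℝ, ‖y‖ ≤ R → Fp g y = ∑ z ∈ Zb M, g (y + cz z)) ∧
      ∀ y : ι → ℝ, ‖y‖ ≤ R → ∀ z : ι → ℤ, z ∉ Zb M → y + cz z ∉ K ∧ g (y + cz z) = 0 := by
  obtain ⟨M, hM⟩ := locfin hK h0 R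
  exact ⟨M, fun y hy => tsum_eq_sum fun z hz => (hM y hy z hz).2, hM⟩

omit [Fintype ι] in
theorem Fp_per (g : (ι → ℝ) → ℝ) (y : ι → ℝ) (z₀ : ι → ℤ) : Fp g (y + cz z₀) = Fp g y := by
  unfold Fp
  rw [← (Equiv.addLeft z₀).tsum_eq (fun z => g (y + cz z))]
  refine tsum_congr fun z => ?_
  rw [Equiv.coe_addLeft, cz_add, add_assoc]

theorem Fp_cont {K : Set (ι → ℝ)} (hK : IsCompact K) {g : (ι → ℝ) → ℝ} (hg : Continuous g)
    (h0 : ∀ t, t ∉ K → g t = 0) : Continuous (Fp g) := by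
  rw [continuous_iff_continuousAt]
  intro y₀
  obtain ⟨M, hM, -⟩ := Fp_eq hK h0 (‖y₀‖ + 1)
  have h1 : ContinuousAt (fun y => ∑ z ∈ Zb M, g (y + cz z)) y₀ := by
    refine Continuous.continuousAt ?_
    exact continuous_finsetSum _ fun z _ => hg.comp (continuous_id.add continuous_const)
  refine h1.congr ?_
  have h2 : ∀ᶠ y in 𝓝 y₀, dist y y₀ < 1 := Metric.ball_mem_nhds y₀ one_pos
  filter_upwards [h2] with y hy
  refine (hM y ?_).symm
  have h3 : ‖y‖ ≤ ‖y₀‖ + dist y y₀ := by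
    rw [dist_eq_norm]
    have h4 : y = y₀ + (y - y₀) := by abel
    calc ‖y‖ = ‖y₀ + (y - y₀)‖ := by rw [← h4]
      _ ≤ _ := norm_add_le _ _
  linarith

/-- the cube of an integral point -/
def Cb (z : ι → ℤ) : Set (ι → ℝ) := {y | ∀ i, ⌊y i⌋ = z i}

theorem Cb_meas (z : ι → ℤ) : MeasurableSet (Cb z) := by
  have h : Cb z = ⋂ i, {y : ι → ℝ | ⌊y i⌋ = z i} := by
    ext y; simp [Cb]
  rw [h]
  exact MeasurableSet.iInter fun i =>
    (Int.measurable_floor.comp (measurable_pi_apply i)) (measurableSet_singleton (z i))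

omit [Fintype ι] in
theorem Cb_add (z : ι → ℤ) (y : ι → ℝ) : y + cz z ∈ Cb z ↔ y ∈ Cb (0 : ι → ℤ) := by
  unfold Cb cz
  simp only [Set.mem_ofPred_eq, Pi.add_apply, Int.floor_add_intCast, Pi.zero_apply]
  constructor
  · intro h i; have := h i; omega
  · intro h i; have := h i; omega

omit [Fintype ι] in
theorem Cb_zero : Cb (0 : ι → ℤ) = pi univ fun i => Ico ((0 : ι → ℝ) i) ((1 : ι → ℝ) i) := by
  ext y
  simp only [Cb, Set.mem_ofPred_eq, Pi.zero_apply, Set.mem_pi, mem_univ, true_imp_iff, mem_Ico,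
    Int.floor_eq_zero_iff, Pi.one_apply]

theorem int_eq {K : Set (ι → ℝ)} (hK : IsCompact K) {g : (ι → ℝ) → ℝ} (hg : Continuous g)
    (h0 : ∀ t, t ∉ K → g t = 0) : ∫ t in Icc (0 : ι → ℝ) 1, Fp g t = ∫ t, g t := by
  classical
  have hcs : HasCompactSupport g := HasCompactSupport.intro hK fun t ht => h0 t ht
  have hint : Integrable g := hg.integrable_of_hasCompactSupport hcs
  obtain ⟨M, hM, hM2⟩ := Fp_eq hK h0 1
  have hU : (⋃ z : ι → ℤ, Cb z) = univ := by
    rw [eq_univ_iff_forall]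
    intro y
    rw [mem_iUnion]
    exact ⟨fun i => ⌊y i⌋, fun i => rfl⟩
  have hd : Pairwise (Function.onFun Disjoint (Cb : (ι → ℤ) → Set (ι → ℝ))) := by
    intro a b hab
    rw [Function.onFun, Set.disjoint_left]
    intro y ha hb
    exact hab (funext fun i => (ha i).symm.trans (hb i))
  have h1 := integral_iUnion (μ := (volume : Measure (ι → ℝ))) (f := g) Cb_meas hd
    hint.integrableOn
  rw [hU, setIntegral_univ] at h1
  have h2 : ∀ z : ι → ℤ, ∫ t in Cb z, g t = ∫ t in Icc (0 : ι → ℝ) 1, g (t + cz z) := by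
    intro z
    have e1 : ∫ t in Icc (0 : ι → ℝ) 1, g (t + cz z) = ∫ t in Cb (0 : ι → ℤ), g (t + cz z) := by
      rw [Cb_zero]
      exact (setIntegral_congr_set
        (Measure.univ_pi_Ico_ae_eq_Icc (μ := fun _ : ι => (volume : Measure ℝ)))).symm
    rw [e1, ← integral_indicator (Cb_meas z), ← integral_indicator (Cb_meas _),
      ← integral_add_right_eq_self (μ := (volume : Measure (ι → ℝ))) ((Cb z).indicator g) (cz z)]
    congr 1
    funext t
    by_cases h : t ∈ Cb (0 : ι → ℤ)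
    · rw [indicator_of_mem h, indicator_of_mem ((Cb_add z t).2 h)]
    · rw [indicator_of_notMem h, indicator_of_notMem (fun h' => h ((Cb_add z t).1 h'))]
  have hn : ∀ t ∈ Icc (0 : ι → ℝ) 1, ‖t‖ ≤ 1 := by
    intro t ht
    rw [pi_norm_le_iff_of_nonneg zero_le_one]
    intro i
    rw [Real.norm_eq_abs, abs_of_nonneg (ht.1 i)]
    exact ht.2 i
  have h3 : ∑' z : ι → ℤ, ∫ t in Cb z, g t = ∑ z ∈ Zb M, ∫ t in Icc (0 : ι → ℝ) 1, g (t + cz z) := by
    rw [tsum_eq_sum (s := Zb M)]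
    · exact Finset.sum_congr rfl fun z _ => h2 z
    · intro z hz
      rw [h2 z, setIntegral_eq_zero_of_forall_eq_zero]
      intro t ht
      exact (hM2 t (hn t ht) z hz).2
  rw [h1, h3, ← integral_finsetSum]
  · refine setIntegral_congr_fun measurableSet_Icc fun t ht => ?_
    exact hM t (hn t ht)
  · intro z _
    exact ((hg.comp (continuous_id.add continuous_const)).continuousOn).integrableOn_compact
      isCompact_Icc

end

theorem pf_EMZ (hPE1 : T_PE1) (hCUB : T_CUB) : T_EMZ := by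
  intro ι _ _ m N g K L hm hL hg hK h0 hN hsm
  have hcont := Fp_cont hK hg h0
  have key : ∀ (y : ι → ℝ) (j : ι),
      |Fp g y - ∫ s in (0 : ℝ)..1, Fp g (y + s • Pi.single j (1 : ℝ))| ≤ N * L := by
    intro y j
    set u : ℝ → ℝ := fun s => Fp g (y + s • Pi.single j (1 : ℝ)) with hu
    have hE : ‖(Pi.single j (1 : ℝ) : ι → ℝ)‖ ≤ 1 := by
      rw [pi_norm_le_iff_of_nonneg zero_le_one]
      intro i
      by_cases h : i = j
      · subst h; simp
      · simp [Pi.single_eq_of_ne h]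
    -- local formula
    have hloc : ∀ s₀ : ℝ, ∃ M : ℕ,
        (u =ᶠ[𝓝 s₀] fun s => ∑ z ∈ Zb M, g ((y + cz z) + s • Pi.single j (1 : ℝ))) := by
      intro s₀
      obtain ⟨M, hM, -⟩ := Fp_eq hK h0 (‖y‖ + (|s₀| + 1))
      refine ⟨M, ?_⟩
      have h2 : ∀ᶠ s in 𝓝 s₀, dist s s₀ < 1 := Metric.ball_mem_nhds s₀ one_pos
      filter_upwards [h2] with s hs
      have h3 : ‖y + s • (Pi.single j (1 : ℝ) : ι → ℝ)‖ ≤ ‖y‖ + (|s₀| + 1) := by
        refine (norm_add_le _ _).trans (add_le_add le_rfl ?_)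
        rw [norm_smul, Real.norm_eq_abs]
        have h4 : |s| ≤ |s₀| + 1 := by
          rw [Real.dist_eq] at hs
          have h5 : |s| ≤ |s₀| + |s - s₀| := by
            have h6 : s = s₀ + (s - s₀) := by ring
            calc |s| = |s₀ + (s - s₀)| := by rw [← h6]
              _ ≤ _ := abs_add_le _ _
          linarith
        calc |s| * ‖(Pi.single j (1 : ℝ) : ι → ℝ)‖ ≤ |s| * 1 :=
              mul_le_mul_of_nonneg_left hE (abs_nonneg s)
          _ ≤ _ := by rw [mul_one]; exact h4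
      rw [hu]
      show Fp g (y + s • (Pi.single j (1 : ℝ) : ι → ℝ)) = _
      rw [hM _ h3]
      refine Finset.sum_congr rfl fun z _ => ?_
      congr 1
      abel
    have hterm : ∀ (z : ι → ℤ), ContDiff ℝ m
        (fun s : ℝ => g ((y + cz z) + s • Pi.single j (1 : ℝ))) := fun z => (hsm _ j).1
    have hper : ∀ x, u (x + 1) = u x := by
      intro x
      have h1 : y + (x + 1) • (Pi.single j (1 : ℝ) : ι → ℝ) =
          (y + x • Pi.single j (1 : ℝ)) + cz (Pi.single j (1 : ℤ)) := by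
        have h2 : cz (Pi.single j (1 : ℤ)) = (Pi.single j (1 : ℝ) : ι → ℝ) := by
          funext i
          by_cases h : i = j
          · subst h; simp [cz]
          · simp [cz, Pi.single_eq_of_ne h]
        rw [h2, add_smul, one_smul, add_assoc]
      show Fp g (y + (x + 1) • (Pi.single j (1 : ℝ) : ι → ℝ)) = _
      rw [h1, Fp_per]
    have hcd : ContDiff ℝ m u := by
      rw [contDiff_iff_contDiffAt]
      intro s₀
      obtain ⟨M, hM⟩ := hloc s₀
      have h1 : ContDiffAt ℝ m (fun s => ∑ z ∈ Zb M, g ((y + cz z) + s • Pi.single j (1 : ℝ))) s₀ :=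
        ContDiffAt.sum fun z _ => (hterm z).contDiffAt
      exact h1.congr_of_eventuallyEq hM
    have hbd : ∀ x, |iteratedDeriv m u x| ≤ N * L := by
      intro s
      obtain ⟨M, hM⟩ := hloc s
      rw [hM.iteratedDeriv_eq m, iteratedDeriv_fun_sum fun z _ => (hterm z).contDiffAt]
      classical
      have h1 : ∀ z : ι → ℤ, |iteratedDeriv m
          (fun s : ℝ => g ((y + cz z) + s • Pi.single j (1 : ℝ))) s| ≤
          if (y + s • Pi.single j (1 : ℝ)) + cz z ∈ K then L else 0 := by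
        intro z
        split_ifs with h
        · have h2 := (hsm ((y + cz z) + s • Pi.single j (1 : ℝ)) j).2
          have h3 : (fun s' : ℝ => g ((y + cz z) + s • Pi.single j (1 : ℝ) +
              s' • Pi.single j (1 : ℝ))) =
              fun s' => (fun r : ℝ => g ((y + cz z) + r • Pi.single j (1 : ℝ))) (s' + s) := by
            funext s'
            show g _ = g _
            congr 1
            rw [add_smul]; abel
          have h4 := congrFun (iteratedDeriv_comp_add_const m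
            (fun r : ℝ => g ((y + cz z) + r • Pi.single j (1 : ℝ))) s) 0
          rw [h3, h4, zero_add] at h2
          exact h2
        · have h2 : (fun s : ℝ => g ((y + cz z) + s • Pi.single j (1 : ℝ))) =ᶠ[𝓝 s]
              fun _ => (0 : ℝ) := by
            have hc : Continuous (fun s : ℝ => (y + cz z) + s • (Pi.single j (1 : ℝ) : ι → ℝ)) := by
              fun_prop
            have h3 : (y + cz z) + s • (Pi.single j (1 : ℝ) : ι → ℝ) ∈ Kᶜ := by
              intro h4
              apply h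
              have h5 : (y + s • (Pi.single j (1 : ℝ) : ι → ℝ)) + cz z =
                (y + cz z) + s • Pi.single j (1 : ℝ) := by abel
              rw [h5]; exact h4
            have h6 := hc.continuousAt.preimage_mem_nhds (hK.isClosed.isOpen_compl.mem_nhds h3)
            filter_upwards [h6] with r hr
            exact h0 _ hr
          rw [h2.iteratedDeriv_eq m]
          have h3 : iteratedDeriv m (fun _ : ℝ => (0 : ℝ)) s = 0 := by
            rw [iteratedDeriv_const]; simp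
          rw [h3, abs_zero]
      have hcard : ((Zb M).filter fun z =>
          (y + s • Pi.single j (1 : ℝ)) + cz z ∈ K).card ≤ N := by
        refine hN (y + s • Pi.single j (1 : ℝ)) _ fun z hz => ?_
        rw [← add_cz]
        exact (Finset.mem_filter.1 hz).2
      exact abs_sum_bd (Zb M) _ _ hL h1 hcard
    have h := hPE1 m u (N * L) hm hcd hper hbd
    have h2 : u 0 = Fp g y := by simp [hu]
    rw [h2] at h
    exact h
  have h := hCUB ι (Fp g) (N * L) hcont key 0
  have h1 : Fp g 0 = ∑' z : ι → ℤ, g (fun i => (z i : ℝ)) := by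
    unfold Fp cz
    simp
  have h2 : ∫ t in Icc (0 : ι → ℝ) 1, Fp g (0 + t) = ∫ t, g t := by
    rw [← int_eq hK hg h0]
    simp
  rw [h1, h2] at h
  exact h

end Pool.Agent.H38.NVP_EMZ
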